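import Pool.Agent.W661.RC.Stm3

/-!
# Project RC: GE1, generic perturbation of two families of unitary matrices
-/

set_option autoImplicit false

namespace Pool.Agent.W370.RC

open Matrix
open Pool.Agent.W661.RC
open scoped Matrix.Norms.L2Operator

noncomputable section

/-- The points of the unit circle near a given one are infinitely many. -/
lemma inf_near (d : ℂ) (hd : ‖d‖ = 1) (ε : ℝ) (hε : 0 < ε) :
    {z : ℂ | ‖z‖ = 1 ∧ ‖z - d‖ ≤ ε}.Infinite := by
  have hinj : Set.InjOn (fun θ : ℝ => d * Complex.exp (Complex.I * θ)) (Set.Ioo 0 (min ε 1)) := by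
    intro a ha b hb h
    have hd0 : d ≠ 0 := by
      intro h0
      rw [h0, norm_zero] at hd
      exact zero_ne_one hd
    have h2 := mul_left_cancel₀ hd0 h
    have hpi := Real.pi_gt_three
    have ha1 : a < 1 := lt_of_lt_of_le ha.2 (min_le_right _ _)
    have hb1 : b < 1 := lt_of_lt_of_le hb.2 (min_le_right _ _)
    have ha0 := ha.1
    have hb0 := hb.1
    have h3 := Complex.exp_inj_of_neg_pi_lt_of_le_pi (x := Complex.I * a) (y := Complex.I * b)
      (by simp; linarith) (by simp; linarith) (by simp; linarith) (by simp; linarith) h2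
    have h4 := mul_left_cancel₀ Complex.I_ne_zero h3
    exact_mod_cast h4
  have hinf : (Set.Ioo (0 : ℝ) (min ε 1)).Infinite := Set.Ioo_infinite (by positivity)
  refine (hinf.image hinj).mono ?_
  rintro z ⟨θ, hθ, rfl⟩
  constructor
  · have : ‖Complex.exp (Complex.I * θ)‖ = 1 := by
      rw [mul_comm]; exact Complex.norm_exp_ofReal_mul_I θ
    simp only [norm_mul, hd, this, mul_one]
  · have h1 : d * Complex.exp (Complex.I * θ) - d = d * (Complex.exp (Complex.I * θ) - 1) := by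
      ring
    simp only [h1, norm_mul, hd, one_mul]
    refine Real.norm_exp_I_mul_ofReal_sub_one_le.trans ?_
    rw [Real.norm_of_nonneg hθ.1.le]
    exact (lt_of_lt_of_le hθ.2 (min_le_left _ _)).le

lemma un_l {n : ℕ} (U : Matrix.unitaryGroup (Fin n) ℂ) :
    (U : Mt n)ᴴ * (U : Mt n) = 1 := by
  have := U.2
  rw [Matrix.mem_unitaryGroup_iff'] at this
  exact this

lemma un_r {n : ℕ} (U : Matrix.unitaryGroup (Fin n) ℂ) :
    (U : Mt n) * (U : Mt n)ᴴ = 1 := by
  have := U.2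
  rw [Matrix.mem_unitaryGroup_iff] at this
  exact this

/-- Unitary matrices are unitarily diagonalisable (by the Cayley transform). -/
lemma diagU {n : ℕ} (W : Matrix.unitaryGroup (Fin n) ℂ) :
    ∃ (P : Matrix.unitaryGroup (Fin n) ℂ) (d : Fin n → ℂ), (∀ i, ‖d i‖ = 1) ∧
      (P : Mt n)ᴴ * (W : Mt n) * (P : Mt n) = Matrix.diagonal d := by
  -- a unimodular number which is not an eigenvalue
  obtain ⟨w, ⟨hw1, -⟩, hw2⟩ : ({z : ℂ | ‖z‖ = 1 ∧ ‖z - 1‖ ≤ 1} \
      {z | (W : Mt n).charpoly.IsRoot z}).Nonempty := by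
    refine ((inf_near 1 (by simp) 1 one_pos).sdiff ?_).nonempty
    exact Polynomial.finite_setOfPred_isRoot (Matrix.charpoly_monic _).ne_zero
  have hww : star w * w = 1 := by
    rw [Complex.star_def, ← Complex.normSq_eq_conj_mul_self, Complex.normSq_eq_norm_sq, hw1]
    simp
  have hdet : IsUnit (Matrix.scalar (Fin n) w - (W : Mt n)).det := by
    rw [isUnit_iff_ne_zero, ← Matrix.eval_charpoly]
    exact hw2
  have hsc : Matrix.scalar (Fin n) w = w • (1 : Mt n) := by
    ext i j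
    simp [Matrix.scalar_apply, Matrix.diagonal_apply, Matrix.one_apply]
  rw [hsc] at hdet
  set Wm : Mt n := (W : Mt n) with hWm
  have hl : Wmᴴ * Wm = 1 := un_l W
  have hr : Wm * Wmᴴ = 1 := un_r W
  set B : Mt n := w • (1 : Mt n) - Wm with hB
  set C : Mt n := w • (1 : Mt n) + Wm with hC
  have hBB : B⁻¹ * B = 1 := Matrix.nonsing_inv_mul _ hdet
  have hBB' : B * B⁻¹ = 1 := Matrix.mul_nonsing_inv _ hdet
  have hCB : Cᴴ * B = - (Bᴴ * C) := by
    simp only [hB, hC, Matrix.conjTranspose_add, Matrix.conjTranspose_sub,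
      Matrix.conjTranspose_smul, Matrix.conjTranspose_one, Matrix.mul_add, Matrix.add_mul,
      Matrix.mul_sub, Matrix.sub_mul, Matrix.smul_mul, Matrix.mul_smul, Matrix.one_mul,
      Matrix.mul_one, hl, smul_smul, smul_add, smul_sub]
    simp only [mul_comm w (star w), hww, one_smul]
    abel
  have hA : (Complex.I • (C * B⁻¹)).IsHermitian := by
    unfold Matrix.IsHermitian
    rw [Matrix.conjTranspose_smul, Matrix.conjTranspose_mul]
    have h1 : (B⁻¹)ᴴ * Bᴴ = 1 := by
      rw [← Matrix.conjTranspose_mul, hBB', Matrix.conjTranspose_one]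
    have h2 : (B⁻¹)ᴴ * Cᴴ = - (C * B⁻¹) := by
      calc (B⁻¹)ᴴ * Cᴴ = (B⁻¹)ᴴ * Cᴴ * (B * B⁻¹) := by rw [hBB', Matrix.mul_one]
        _ = (B⁻¹)ᴴ * (Cᴴ * B) * B⁻¹ := by simp only [Matrix.mul_assoc]
        _ = -((B⁻¹)ᴴ * Bᴴ * (C * B⁻¹)) := by
            rw [hCB]; simp only [Matrix.mul_neg, Matrix.neg_mul, Matrix.mul_assoc]
        _ = - (C * B⁻¹) := by rw [h1, Matrix.one_mul]
    rw [h2]
    simp
  obtain ⟨P, a, hPa⟩ : ∃ (P : Matrix.unitaryGroup (Fin n) ℂ) (a : Fin n → ℝ),
      (P : Mt n)ᴴ * (Complex.I • (C * B⁻¹)) * (P : Mt n) =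
        Matrix.diagonal (fun i => ((a i : ℝ) : ℂ)) := by
    refine ⟨hA.eigenvectorUnitary, hA.eigenvalues, ?_⟩
    have := hA.conjStarAlgAut_star_eigenvectorUnitary
    rw [Unitary.conjStarAlgAut_star_apply] at this
    exact this
  have hPl : (P : Mt n)ᴴ * (P : Mt n) = 1 := un_l P
  have hPr : (P : Mt n) * (P : Mt n)ᴴ = 1 := un_r P
  set Pm : Mt n := (P : Mt n) with hPm
  set D : Mt n := Matrix.diagonal (fun i => ((a i : ℝ) : ℂ)) with hD
  set W' : Mt n := Pmᴴ * Wm * Pm with hW'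
  -- `I C = A B`
  have h3 : Complex.I • C = (Complex.I • (C * B⁻¹)) * B := by
    rw [Matrix.smul_mul, Matrix.mul_assoc, hBB, Matrix.mul_one]
  have h4 : Complex.I • (w • (1 : Mt n) + W') = D * (w • (1 : Mt n) - W') := by
    have e1 : w • (1 : Mt n) + W' = Pmᴴ * C * Pm := by
      rw [hC, hW', Matrix.mul_add, Matrix.add_mul, Matrix.mul_smul, Matrix.mul_one,
        Matrix.smul_mul, hPl]
    have e2 : w • (1 : Mt n) - W' = Pmᴴ * B * Pm := by
      rw [hB, hW', Matrix.mul_sub, Matrix.sub_mul, Matrix.mul_smul, Matrix.mul_one,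
        Matrix.smul_mul, hPl]
    rw [e1, e2, ← hPa]
    calc Complex.I • (Pmᴴ * C * Pm) = Pmᴴ * (Complex.I • C) * Pm := by
          simp only [Matrix.mul_smul, Matrix.smul_mul]
      _ = Pmᴴ * ((Complex.I • (C * B⁻¹)) * B) * Pm := by rw [h3]
      _ = Pmᴴ * (Complex.I • (C * B⁻¹)) * (Pm * Pmᴴ) * B * Pm := by
          rw [hPr, Matrix.mul_one]; simp only [Matrix.mul_assoc]
      _ = _ := by simp only [Matrix.mul_assoc]
  have hoff : ∀ i j, i ≠ j → W' i j = 0 := by
    intro i j hij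
    have h5 := congrFun (congrFun h4 i) j
    rw [hD, Matrix.diagonal_mul] at h5
    simp only [Matrix.smul_apply, Matrix.add_apply, Matrix.sub_apply, Matrix.one_apply_ne hij,
      smul_zero, zero_add, zero_sub, smul_eq_mul] at h5
    have h6 : (Complex.I + a i) * W' i j = 0 := by linear_combination h5
    rcases mul_eq_zero.mp h6 with h7 | h7
    · exfalso
      have := congrArg Complex.im h7
      simp at this
    · exact h7
  have hdg : W' = Matrix.diagonal (fun i => W' i i) := by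
    ext i j
    by_cases hij : i = j
    · subst hij; simp
    · rw [Matrix.diagonal_apply_ne _ hij, hoff i j hij]
  refine ⟨P, fun i => W' i i, ?_, hdg⟩
  intro i
  have hWW : W'ᴴ * W' = 1 := by
    rw [hW', Matrix.conjTranspose_mul, Matrix.conjTranspose_mul,
      Matrix.conjTranspose_conjTranspose]
    calc Pmᴴ * (Wmᴴ * Pm) * (Pmᴴ * Wm * Pm) = Pmᴴ * (Wmᴴ * ((Pm * Pmᴴ) * (Wm * Pm))) := by
          simp only [Matrix.mul_assoc]
      _ = 1 := by
          rw [hPr, Matrix.one_mul, ← Matrix.mul_assoc Wmᴴ, hl, Matrix.one_mul, hPl]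
  rw [hdg] at hWW
  rw [Matrix.diagonal_conjTranspose, Matrix.diagonal_mul_diagonal] at hWW
  have h8 := congrFun (congrFun hWW i) i
  rw [Matrix.diagonal_apply_eq, Matrix.one_apply_eq] at h8
  simp only [Pi.star_apply, Complex.star_def] at h8
  rw [← Complex.normSq_eq_conj_mul_self, Complex.normSq_eq_norm_sq] at h8
  have h9 : ‖W' i i‖ ^ 2 = 1 := by exact_mod_cast h8
  have h10 : (‖W' i i‖ - 1) * (‖W' i i‖ + 1) = 0 := by ring_nf; linarith
  rcases mul_eq_zero.mp h10 with h | h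
  · linarith
  · have := norm_nonneg (W' i i); linarith

/-- Distinct points of the unit circle near given ones. -/
lemma choose_e {J : Type} [Fintype J] [DecidableEq J] (d : J → ℂ) (hd : ∀ j, ‖d j‖ = 1)
    (ε : ℝ) (hε : 0 < ε) :
    ∃ e : J → ℂ, Function.Injective e ∧ (∀ j, ‖e j‖ = 1) ∧ ∀ j, ‖e j - d j‖ ≤ ε := by
  classical
  choose T hT1 hT2 using fun j => (inf_near (d j) (hd j) ε hε).exists_subset_card_eq
    (Fintype.card J)
  have hall : ∀ s : Finset J, s.card ≤ (s.biUnion T).card := by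
    intro s
    rcases s.eq_empty_or_nonempty with rfl | ⟨j, hj⟩
    · simp
    · calc s.card ≤ Fintype.card J := Finset.card_le_univ s
        _ = (T j).card := (hT2 j).symm
        _ ≤ _ := Finset.card_le_card (Finset.subset_biUnion_of_mem T hj)
  obtain ⟨e, he1, he2⟩ := (Finset.all_card_le_biUnion_card_iff_exists_injective T).mp hall
  exact ⟨e, he1, fun j => (hT1 j (he2 j)).1, fun j => (hT1 j (he2 j)).2⟩

/-- A unitary matrix is close to a unitary matrix without zero entries. -/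
lemma genU {n : ℕ} (U : Matrix.unitaryGroup (Fin n) ℂ) (ε : ℝ) (hε : 0 < ε) :
    ∃ V : Matrix.unitaryGroup (Fin n) ℂ, hs ((V : Mt n) - (U : Mt n)) ≤ ε ∧
      ∀ p q, (V : Mt n) p q ≠ 0 := by
  classical
  rcases Nat.eq_zero_or_pos n with rfl | hn
  · exact ⟨U, by simp [hs, hε.le], fun p => p.elim0⟩
  -- a vector
  set Q : Fin n → Polynomial ℂ := fun p =>
    ∑ r : Fin n, Polynomial.C ((U : Mt n) p r) * Polynomial.X ^ (r : ℕ) with hQ
  have hQ0 : ∀ p, Q p ≠ 0 := by
    intro p hp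
    have hrow : ∀ r, (U : Mt n) p r = 0 := by
      intro r
      have h1 := congrArg (fun f => Polynomial.coeff f (r : ℕ)) hp
      simp only [hQ, Polynomial.finsetSum_coeff, Polynomial.coeff_C_mul, Polynomial.coeff_X_pow,
        Polynomial.coeff_zero] at h1
      rw [Finset.sum_eq_single r] at h1
      · simpa using h1
      · intro b _ hb
        rw [if_neg, mul_zero]
        intro h
        exact hb (Fin.ext h.symm)
      · intro h
        exact absurd (Finset.mem_univ r) h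
    have h2 := congrFun (congrFun (un_r U) p) p
    rw [Matrix.mul_apply, Matrix.one_apply_eq] at h2
    simp [hrow] at h2
  have hprod : (Polynomial.X * ∏ p, Q p : Polynomial ℂ) ≠ 0 :=
    mul_ne_zero Polynomial.X_ne_zero (Finset.prod_ne_zero_iff.mpr fun p _ => hQ0 p)
  obtain ⟨x, -, hx⟩ : ((Set.univ : Set ℂ) \
      {z | (Polynomial.X * ∏ p, Q p : Polynomial ℂ).IsRoot z}).Nonempty :=
    (Set.infinite_univ.sdiff (Polynomial.finite_setOfPred_isRoot hprod)).nonempty
  have hx' : x * ∏ p, (Q p).eval x ≠ 0 := by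
    have h : ¬ (Polynomial.X * ∏ p, Q p : Polynomial ℂ).IsRoot x := hx
    rw [Polynomial.IsRoot.def, Polynomial.eval_mul, Polynomial.eval_X, Polynomial.eval_prod] at h
    exact h
  have hx0 : x ≠ 0 := left_ne_zero_of_mul hx'
  have hxQ : ∀ p, (Q p).eval x ≠ 0 := fun p =>
    (Finset.prod_ne_zero_iff.mp (right_ne_zero_of_mul hx')) p (Finset.mem_univ p)
  set v : Fin n → ℂ := fun r => x ^ (r : ℕ) with hv
  have hv0 : ∀ r, v r ≠ 0 := fun r => pow_ne_zero _ hx0
  have hUv : ∀ p, ((U : Mt n).mulVec v) p ≠ 0 := by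
    intro p
    have h1 : ((U : Mt n).mulVec v) p = (Q p).eval x := by
      simp only [hQ, Polynomial.eval_finsetSum, Polynomial.eval_mul, Polynomial.eval_C,
        Polynomial.eval_pow, Polynomial.eval_X, Matrix.mulVec, dotProduct, hv]
    rw [h1]
    exact hxQ p
  set N : ℂ := star v ⬝ᵥ v with hN
  have hNr : N = ((∑ r, ‖v r‖ ^ 2 : ℝ) : ℂ) := by
    rw [hN]
    simp only [dotProduct, Pi.star_apply, Complex.star_def]
    push_cast
    refine Finset.sum_congr rfl fun r _ => ?_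
    rw [← Complex.normSq_eq_conj_mul_self, Complex.normSq_eq_norm_sq]
    push_cast
    rfl
  have hNstar : star N = N := by
    rw [hNr, Complex.star_def, Complex.conj_ofReal]
  have hN0 : N ≠ 0 := by
    rw [hNr]
    have : 0 < ∑ r, ‖v r‖ ^ 2 := by
      refine Finset.sum_pos (fun r _ => ?_) ⟨⟨0, hn⟩, Finset.mem_univ _⟩
      have := norm_pos_iff.mpr (hv0 r)
      positivity
    exact_mod_cast this.ne'
  set E : Mt n := N⁻¹ • Matrix.vecMulVec v (star v) with hE
  have hEE : E * E = E := by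
    rw [hE, Matrix.smul_mul, Matrix.mul_smul, Matrix.vecMulVec_mul_vecMulVec, smul_smul]
    rw [← hN]
    ext i j
    simp only [Matrix.smul_apply, Matrix.vecMulVec_apply, smul_eq_mul, Pi.smul_apply,
      Matrix.vecMulVec_smul]
    field_simp
  have hEs : Eᴴ = E := by
    rw [hE, Matrix.conjTranspose_smul, star_inv₀, hNstar]
    congr 1
    ext i j
    simp [Matrix.vecMulVec_apply, Matrix.conjTranspose_apply, mul_comm]
  have hUE : ∀ p q, ((U : Mt n) * E) p q ≠ 0 := by
    intro p q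
    have h1 : ((U : Mt n) * E) p q = N⁻¹ * (((U : Mt n).mulVec v) p * star (v q)) := by
      rw [hE, Matrix.mul_smul, Matrix.smul_apply, smul_eq_mul, Matrix.mul_vecMulVec,
        Matrix.vecMulVec_apply, Pi.star_apply]
    rw [h1]
    exact mul_ne_zero (inv_ne_zero hN0) (mul_ne_zero (hUv p) (star_ne_zero.mpr (hv0 q)))
  set H : ℝ := hs ((U : Mt n) * E) with hH
  have hH0 : 0 ≤ H := hs_nonneg' _
  set ε' : ℝ := min 1 (ε / (H + 1)) with hε'
  have hε'0 : 0 < ε' := by
    refine lt_min one_pos ?_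
    positivity
  obtain ⟨ω, ⟨hω1, hω2⟩, hω3⟩ : ({z : ℂ | ‖z‖ = 1 ∧ ‖z - 1‖ ≤ ε'} \
      (Set.range fun pq : Fin n × Fin n =>
        1 - (U : Mt n) pq.1 pq.2 / ((U : Mt n) * E) pq.1 pq.2)).Nonempty :=
    ((inf_near 1 (by simp) ε' hε'0).sdiff (Set.finite_range _)).nonempty
  have hωω : star ω * ω = 1 := by
    rw [Complex.star_def, ← Complex.normSq_eq_conj_mul_self, Complex.normSq_eq_norm_sq, hω1]
    simp
  have hR : (1 + (ω - 1) • E)ᴴ * (1 + (ω - 1) • E) = 1 := by
    rw [Matrix.conjTranspose_add, Matrix.conjTranspose_smul, hEs, Matrix.conjTranspose_one]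
    simp only [Matrix.mul_add, Matrix.add_mul, Matrix.smul_mul, Matrix.mul_smul, Matrix.one_mul,
      Matrix.mul_one, hEE, smul_add, smul_smul]
    have h1 : (1 : Mt n) + star (ω - 1) • E + ((ω - 1) • E + ((ω - 1) * star (ω - 1)) • E) =
        1 + (star (ω - 1) + (ω - 1) + (ω - 1) * star (ω - 1)) • E := by
      rw [add_smul, add_smul]; abel
    have h2 : star (ω - 1) + (ω - 1) + (ω - 1) * star (ω - 1) = 0 := by
      rw [star_sub, star_one]
      linear_combination hωω
    rw [h1, h2, zero_smul, add_zero]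
  have hVmem : (U : Mt n) * (1 + (ω - 1) • E) ∈ Matrix.unitaryGroup (Fin n) ℂ := by
    refine mul_mem U.2 ?_
    rw [Matrix.mem_unitaryGroup_iff']
    exact hR
  refine ⟨⟨_, hVmem⟩, ?_, ?_⟩
  · have h1 : (U : Mt n) * (1 + (ω - 1) • E) - (U : Mt n) = (ω - 1) • ((U : Mt n) * E) := by
      rw [Matrix.mul_add, Matrix.mul_one, Matrix.mul_smul, add_sub_cancel_left]
    show hs ((U : Mt n) * (1 + (ω - 1) • E) - (U : Mt n)) ≤ ε
    rw [h1]
    have h2 : hs ((ω - 1) • ((U : Mt n) * E)) = ‖ω - 1‖ ^ 2 * H := by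
      rw [hH]
      unfold hs
      rw [Finset.mul_sum]
      refine Finset.sum_congr rfl fun i _ => ?_
      rw [Finset.mul_sum]
      refine Finset.sum_congr rfl fun j _ => ?_
      rw [Matrix.smul_apply, smul_eq_mul, norm_mul, mul_pow]
    rw [h2]
    have h3 : ‖ω - 1‖ ≤ 1 := hω2.trans (min_le_left _ _)
    have h4 : ‖ω - 1‖ ≤ ε / (H + 1) := hω2.trans (min_le_right _ _)
    have h5 : ‖ω - 1‖ ^ 2 ≤ ε / (H + 1) := by
      nlinarith [norm_nonneg (ω - 1)]
    have h6 : 0 ≤ ε / (H + 1) := by positivity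
    calc ‖ω - 1‖ ^ 2 * H ≤ ε / (H + 1) * (H + 1) :=
          mul_le_mul h5 (by linarith) hH0 h6
      _ = ε := by field_simp
  · intro p q hpq
    have h1 : ((U : Mt n) * (1 + (ω - 1) • E)) p q =
        (U : Mt n) p q + (ω - 1) * ((U : Mt n) * E) p q := by
      rw [Matrix.mul_add, Matrix.mul_one, Matrix.mul_smul, Matrix.add_apply, Matrix.smul_apply,
        smul_eq_mul]
    have h2 : (U : Mt n) p q + (ω - 1) * ((U : Mt n) * E) p q = 0 := by
      rw [← h1]; exact hpq
    apply hω3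
    refine ⟨(p, q), ?_⟩
    have h3 := hUE p q
    simp only
    field_simp
    linear_combination -h2

lemma norm_unit_le {n : ℕ} (P : Matrix.unitaryGroup (Fin n) ℂ) : ‖(P : Mt n)‖ ≤ 1 := by
  have h := CStarRing.norm_star_mul_self (x := (P : Mt n))
  have h1 : star (P : Mt n) * (P : Mt n) = 1 := un_l P
  rw [h1] at h
  have h2 := norm_one_le' n
  nlinarith [norm_nonneg (P : Mt n)]

lemma hs_conj_unit {n : ℕ} (P : Matrix.unitaryGroup (Fin n) ℂ) (x : Mt n) :
    hs ((P : Mt n) * x * (P : Mt n)ᴴ) ≤ hs x := by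
  have h1 := hs_mul_le_op' ((P : Mt n)ᴴ) ((P : Mt n) * x)
  have h2 := hs_mul_le_op (P : Mt n) x
  rw [Matrix.l2_opNorm_conjTranspose] at h1
  have h3 := norm_unit_le P
  have h4 : ‖(P : Mt n)‖ ^ 2 ≤ 1 := by nlinarith [norm_nonneg (P : Mt n)]
  have h5 := hs_nonneg' x
  have h6 := hs_nonneg' ((P : Mt n) * x)
  nlinarith

theorem main : Ge1P := by
  classical
  intro K _ _ l W ε hε
  choose P d hd hP using fun κ => diagU (W 0 κ)
  set M : ℝ := ((∑ κ, l κ : ℕ) : ℝ) with hM
  have hM0 : 0 ≤ M := Nat.cast_nonneg _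
  set ε1 : ℝ := min 1 (ε / (M + 1)) with hε1
  have hε10 : 0 < ε1 := by
    refine lt_min one_pos ?_
    positivity
  obtain ⟨e, he1, he2, he3⟩ := choose_e (J := (Σ κ, Fin (l κ))) (fun j => d j.1 j.2)
    (fun j => hd j.1 j.2) ε1 hε10
  -- second generator
  have hmem : ∀ κ, (P κ : Mt (l κ))ᴴ * (W 1 κ : Mt (l κ)) * (P κ : Mt (l κ)) ∈
      Matrix.unitaryGroup (Fin (l κ)) ℂ := fun κ =>
    mul_mem (mul_mem (Unitary.star_mem (P κ).2) (W 1 κ).2) (P κ).2
  choose V' hV'1 hV'2 using fun κ => genU ⟨_, hmem κ⟩ ε hε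
  have hDmem : ∀ κ, Matrix.diagonal (fun i => e ⟨κ, i⟩) ∈ Matrix.unitaryGroup (Fin (l κ)) ℂ := by
    intro κ
    rw [Matrix.mem_unitaryGroup_iff', Matrix.star_eq_conjTranspose,
      Matrix.diagonal_conjTranspose, Matrix.diagonal_mul_diagonal, ← Matrix.diagonal_one]
    congr 1
    funext i
    simp only [Pi.star_apply, Complex.star_def]
    rw [← Complex.normSq_eq_conj_mul_self, Complex.normSq_eq_norm_sq, he2]
    simp
  set De : (κ : K) → Mt (l κ) := fun κ => Matrix.diagonal (fun i => e ⟨κ, i⟩) with hDe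
  have hV0mem : ∀ κ, (P κ : Mt (l κ)) * De κ * (P κ : Mt (l κ))ᴴ ∈
      Matrix.unitaryGroup (Fin (l κ)) ℂ := fun κ =>
    mul_mem (mul_mem (P κ).2 (hDmem κ)) (Unitary.star_mem (P κ).2)
  have hV1mem : ∀ κ, (P κ : Mt (l κ)) * (V' κ : Mt (l κ)) * (P κ : Mt (l κ))ᴴ ∈
      Matrix.unitaryGroup (Fin (l κ)) ℂ := fun κ =>
    mul_mem (mul_mem (P κ).2 (V' κ).2) (Unitary.star_mem (P κ).2)
  -- intertwiners in the eigenbases
  have key : ∀ (κ κ' : K) (y : Matrix (Fin (l κ)) (Fin (l κ')) ℂ) (A : Mt (l κ)) (A' : Mt (l κ')),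
      (P κ : Mt (l κ)) * A * (P κ : Mt (l κ))ᴴ * y =
        y * ((P κ' : Mt (l κ')) * A' * (P κ' : Mt (l κ'))ᴴ) →
      A * ((P κ : Mt (l κ))ᴴ * y * (P κ' : Mt (l κ'))) =
        ((P κ : Mt (l κ))ᴴ * y * (P κ' : Mt (l κ'))) * A' := by
    intro κ κ' y A A' h
    calc A * ((P κ : Mt (l κ))ᴴ * y * (P κ' : Mt (l κ')))
        = ((P κ : Mt (l κ))ᴴ * (P κ : Mt (l κ))) * (A * ((P κ : Mt (l κ))ᴴ * y *
            (P κ' : Mt (l κ')))) := by rw [un_l, Matrix.one_mul]
      _ = (P κ : Mt (l κ))ᴴ * ((P κ : Mt (l κ)) * A * (P κ : Mt (l κ))ᴴ * y) *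
            (P κ' : Mt (l κ')) := by simp only [Matrix.mul_assoc]
      _ = (P κ : Mt (l κ))ᴴ * (y * ((P κ' : Mt (l κ')) * A' * (P κ' : Mt (l κ'))ᴴ)) *
            (P κ' : Mt (l κ')) := by rw [h]
      _ = (P κ : Mt (l κ))ᴴ * y * (P κ' : Mt (l κ')) * A' *
            ((P κ' : Mt (l κ'))ᴴ * (P κ' : Mt (l κ'))) := by simp only [Matrix.mul_assoc]
      _ = _ := by rw [un_l, Matrix.mul_one]
  have back : ∀ (κ κ' : K) (y : Matrix (Fin (l κ)) (Fin (l κ')) ℂ),
      y = (P κ : Mt (l κ)) * ((P κ : Mt (l κ))ᴴ * y * (P κ' : Mt (l κ'))) *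
        (P κ' : Mt (l κ'))ᴴ := by
    intro κ κ' y
    calc y = ((P κ : Mt (l κ)) * (P κ : Mt (l κ))ᴴ) * y *
          ((P κ' : Mt (l κ')) * (P κ' : Mt (l κ'))ᴴ) := by
            rw [un_r, un_r, Matrix.one_mul, Matrix.mul_one]
      _ = _ := by simp only [Matrix.mul_assoc]
  refine ⟨fun s κ => if s = 0 then ⟨_, hV0mem κ⟩ else ⟨_, hV1mem κ⟩, ?_, ?_, ?_⟩
  · intro s κ
    fin_cases s
    · simp only [Fin.zero_eta, if_true]
      have h1 : (W 0 κ : Mt (l κ)) = (P κ : Mt (l κ)) * Matrix.diagonal (d κ) *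
          (P κ : Mt (l κ))ᴴ := by
        rw [← hP κ]; exact back κ κ _
      rw [h1, ← Matrix.sub_mul, ← Matrix.mul_sub]
      refine (hs_conj_unit _ _).trans ?_
      have h2 : De κ - Matrix.diagonal (d κ) = Matrix.diagonal (fun i => e ⟨κ, i⟩ - d κ i) := by
        rw [hDe, Matrix.diagonal_sub]
      rw [h2]
      have h3 : hs (Matrix.diagonal (fun i => e ⟨κ, i⟩ - d κ i)) =
          ∑ i, ‖e ⟨κ, i⟩ - d κ i‖ ^ 2 := by
        unfold hs
        refine Finset.sum_congr rfl fun i _ => ?_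
        rw [Finset.sum_eq_single i]
        · rw [Matrix.diagonal_apply_eq]
        · intro j _ hj
          rw [Matrix.diagonal_apply_ne _ hj.symm]
          simp
        · intro h
          exact absurd (Finset.mem_univ i) h
      rw [h3]
      have h4 : ∀ i ∈ (Finset.univ : Finset (Fin (l κ))),
          ‖e ⟨κ, i⟩ - d κ i‖ ^ 2 ≤ ε / (M + 1) := by
        intro i _
        have h5 := he3 ⟨κ, i⟩
        have h6 : ‖e ⟨κ, i⟩ - d κ i‖ ≤ 1 := h5.trans (min_le_left _ _)
        have h7 : ‖e ⟨κ, i⟩ - d κ i‖ ≤ ε / (M + 1) := h5.trans (min_le_right _ _)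
        nlinarith [norm_nonneg (e ⟨κ, i⟩ - d κ i)]
      refine (Finset.sum_le_sum h4).trans ?_
      rw [Finset.sum_const, Finset.card_univ, Fintype.card_fin, nsmul_eq_mul]
      have h8 : ((l κ : ℕ) : ℝ) ≤ M := by
        rw [hM]
        exact_mod_cast Finset.single_le_sum (f := l) (fun i _ => Nat.zero_le _)
          (Finset.mem_univ κ)
      have h9 : 0 ≤ ε / (M + 1) := by positivity
      calc (l κ : ℝ) * (ε / (M + 1)) ≤ (M + 1) * (ε / (M + 1)) :=
            mul_le_mul_of_nonneg_right (by linarith) h9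
        _ = ε := by field_simp
    · simp only [Fin.mk_one, one_ne_zero, if_false]
      have h1 : (W 1 κ : Mt (l κ)) = (P κ : Mt (l κ)) *
          ((P κ : Mt (l κ))ᴴ * (W 1 κ : Mt (l κ)) * (P κ : Mt (l κ))) *
          (P κ : Mt (l κ))ᴴ := back κ κ _
      rw [h1, ← Matrix.sub_mul, ← Matrix.mul_sub]
      exact (hs_conj_unit _ _).trans (hV'1 κ)
  · intro κ κ' y hκ hy
    have h0 := hy 0
    simp only [if_true] at h0
    have h1 := key κ κ' y _ _ h0
    have h2 : (P κ : Mt (l κ))ᴴ * y * (P κ' : Mt (l κ')) = 0 := by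
      ext p r
      have h3 := congrFun (congrFun h1 p) r
      rw [hDe] at h3
      simp only [Matrix.diagonal_mul, Matrix.mul_diagonal] at h3
      have h4 : (e ⟨κ, p⟩ - e ⟨κ', r⟩) *
          ((P κ : Mt (l κ))ᴴ * y * (P κ' : Mt (l κ'))) p r = 0 := by
        linear_combination h3
      rcases mul_eq_zero.mp h4 with h5 | h5
      · exfalso
        have h6 := he1 (sub_eq_zero.mp h5)
        exact hκ (congrArg Sigma.fst h6)
      · rw [h5]; rfl
    rw [back κ κ' y, h2, Matrix.mul_zero, Matrix.zero_mul]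
  · intro κ y hy
    have h0 := hy 0
    have h1 := hy 1
    simp only [if_true] at h0
    simp only [one_ne_zero, if_false] at h1
    have k0 := key κ κ y _ _ h0
    have k1 := key κ κ y _ _ h1
    set y' : Mt (l κ) := (P κ : Mt (l κ))ᴴ * y * (P κ : Mt (l κ)) with hy'
    have hoff : ∀ p r, p ≠ r → y' p r = 0 := by
      intro p r hpr
      have h3 := congrFun (congrFun k0 p) r
      rw [hDe] at h3
      simp only [Matrix.diagonal_mul, Matrix.mul_diagonal] at h3
      have h4 : (e ⟨κ, p⟩ - e ⟨κ, r⟩) * y' p r = 0 := by linear_combination h3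
      rcases mul_eq_zero.mp h4 with h5 | h5
      · exfalso
        have h6 := he1 (sub_eq_zero.mp h5)
        apply hpr
        simpa using h6
      · exact h5
    have hdg : y' = Matrix.diagonal (fun i => y' i i) := by
      ext i j
      by_cases hij : i = j
      · subst hij; simp
      · rw [Matrix.diagonal_apply_ne _ hij, hoff i j hij]
    have hconst : ∀ p r, y' p p = y' r r := by
      intro p r
      rw [hdg] at k1
      have h3 := congrFun (congrFun k1 p) r
      simp only [Matrix.diagonal_mul, Matrix.mul_diagonal] at h3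
      have h4 : (y' p p - y' r r) * (V' κ : Mt (l κ)) p r = 0 := by
        linear_combination -h3
      rcases mul_eq_zero.mp h4 with h5 | h5
      · exact sub_eq_zero.mp h5
      · exact absurd h5 (hV'2 κ p r)
    rcases Nat.eq_zero_or_pos (l κ) with h | h
    · refine ⟨0, ?_⟩
      ext i
      exact absurd i.2 (by omega)
    · refine ⟨y' ⟨0, h⟩ ⟨0, h⟩, ?_⟩
      have h3 : y' = y' ⟨0, h⟩ ⟨0, h⟩ • (1 : Mt (l κ)) := by
        conv_lhs => rw [hdg]
        ext i j
        by_cases hij : i = j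
        · subst hij
          simp [hconst i ⟨0, h⟩]
        · simp [Matrix.diagonal_apply_ne _ hij, Matrix.one_apply_ne hij]
      have h4 := back κ κ y
      rw [← hy'] at h4
      rw [h4]
      conv_lhs => rw [h3]
      rw [Matrix.mul_smul, Matrix.smul_mul, Matrix.mul_one, un_r]

end

end Pool.Agent.W370.RC
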